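import Pool.Agent.W_448g_h5.GF
import Pool.Agent.W_448cr_h63.CH

/-!
# Final assembly of the theorem on connected Gaussian posets (MP_448cb3_co)

`Bad P r j`: the levels less than `j` are good, level `j` is not (`1 ≤ j`, `j + 1 ≤ r`).
Step A: then no element of level `j + 1` is below two maximal elements.
Step B: impossible if no element of level `j + 1` is below two maximal elements.
-/

namespace Pool.Agent.GaussPoset.Win

set_option linter.unusedSectionVars false

open Finset OrderDual

universe u

/-- level `j` is the first bad level -/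
structure Bad (P : Type u) [Fintype P] [PartialOrder P] [DecidableEq P] (r j : ℕ) : Prop where
  gt : GoodTo P r j
  bad : ¬ Good P j

variable {P : Type u} [Fintype P] [PartialOrder P] [DecidableEq P] {r j : ℕ}

lemma Bad.one_le (h : Bad P r j) : 1 ≤ j := by
  rcases Nat.eq_zero_or_pos j with h0 | h0
  · subst h0
    exact absurd (good_zero h.gt.H) h.bad
  · exact h0

lemma Bad.lt (h : Bad P r j) : j + 1 ≤ r := by
  by_contra hcon
  have h1 := h.gt.hr
  have h2 : j = r := by omega
  subst h2
  exact h.bad (good_last h.gt.H)

/-- a first bad level exists if some level is bad -/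
lemma exists_bad (H : Gr P r) (hM : ¬ Modl P) : ∃ j, Bad P r j := by
  classical
  by_contra hcon
  push Not at hcon
  have key : ∀ j, j ≤ r → Good P j := by
    intro j
    induction j using Nat.strong_induction_on with
    | _ j ih =>
      intro hj
      by_contra hb
      exact hcon j ⟨⟨H, hj, fun l hl => ih l hl (by omega)⟩, hb⟩
  apply hM
  intro v v' hne
  by_cases hl : lev v = lev v'
  · exact key (lev v) (H.lev_le v) v v' rfl hl.symm hne
  · exact ucv_zero_of_lev H hl

/-- the final assembly -/
theorem distrib_of_bad (hG : IsGaussian P) (hc : (SimpleGraph.hasse P).Connected)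
    (hA : ∀ r j, Bad P r j → ∀ z : P, lev z = j + 1 → ¬ Hul.Jn z)
    (hB : ∀ r j, Bad P r j → (∀ z : P, lev z = j + 1 → ¬ Hul.Jn z) → False) :
    IsDistribLatticeOrder P := by
  obtain ⟨r, H⟩ := gr_of_connected hG hc
  by_cases hM : Modl P
  · exact distrib_of_modl hG hc hM
  · obtain ⟨j, hj⟩ := exists_bad H hM
    exact absurd (hB r j hj (hA r j hj)) id

end Pool.Agent.GaussPoset.Win
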